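import Pool.Agent.Lib.MP_e6c033_lc.TU.MoDefs
import Pool.Agent.Lib.MP_e6c033_lc.TU.Circ
import Pool.Agent.Lib.MP_e6c033_lc.TU.Defs

section

/-!
# Task Am: the minors of the members of a family form a minor-closed class

Proofs.  Let `(φ, ε)` be a model of `H` in `G`.
* `isMinor_iso'`: `(f, g)` an isomorphism from `H` to `H'`: `φ' w = (φ w).map f`, `ε' = ε ∘ g.symm`; ends may be exchanged.
* `isMinor_delE'`: `φ' = φ`, `ε' e' = ε e'.1`.  A `Con` step for `ε` is a `Con` step for `ε'` (`ε'` uses fewer edges).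
* `isMinor_delV'`: `φ' w = ` the vertex of `φ w` if it is `some u` with `u ≠ v`, else `none`; `ε' e' = ε e'.1`.
* `isMinor_contr'`: `a = (H.ends e).1`, `b = (H.ends e).2`; `φ' w = (φ w).map (H.mg e hne)`; `ε' e' = ε e'.1`.  The branch set of `a` in the new model is the union of the branch sets of `a` and `b`; the edge `ε e` joins them and
  is not used any more, so (`EqvGen`) all is connected: `w, w'` with `φ' = some v`: if `v ≠ a` both are in the old branch set of `v`; if `v = a`: each of them is in the branch set of `a` or of `b`; the ends of `ε e` are one in each.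
-/

set_option autoImplicit false

namespace Pool.Agent.TU

private theorem Am_eqv_mono {α : Type} {r s : α → α → Prop}
    (h : ∀ a b, r a b → Relation.EqvGen s a b) {a b : α} (hab : Relation.EqvGen r a b) :
    Relation.EqvGen s a b := by
  induction hab with
  | rel _ _ h' => exact h _ _ h'
  | refl _ => exact Relation.EqvGen.refl _
  | symm _ _ _ ih => exact Relation.EqvGen.symm _ _ ih
  | trans _ _ _ _ _ ih1 ih2 => exact Relation.EqvGen.trans _ _ _ ih1 ih2

theorem isMinor_iso' {H H' G : MGraph} (h : IsMinor H G) (hi : MGraph.Iso H H') :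
    IsMinor H' G := by
  obtain ⟨φ, ε, hinj, hends, hsurj, hconn⟩ := h
  obtain ⟨f, g, hfg⟩ := hi
  refine ⟨fun w => (φ w).map f, fun e => ε (g.symm e), ?_, ?_, ?_, ?_⟩
  · intro a b hab
    exact g.symm.injective (hinj hab)
  · intro e
    have h1 := hends (g.symm e)
    have h2 := hfg (g.symm e)
    rw [Equiv.apply_symm_apply] at h2
    rcases h2 with h2 | h2 <;> rcases h1 with ⟨h1, h1'⟩ | ⟨h1, h1'⟩ <;> rw [h2] <;>
      simp [h1, h1']
  · intro v
    obtain ⟨w, hw⟩ := hsurj (f.symm v)
    exact ⟨w, by simp [hw]⟩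
  · intro w w' v hw hw'
    have key : ∀ x, (φ x).map f = some v ↔ φ x = some (f.symm v) := by
      intro x
      cases hx : φ x with
      | none => simp
      | some u => simp [Equiv.eq_symm_apply]
    have h1 := hconn w w' (f.symm v) ((key w).1 hw) ((key w').1 hw')
    refine Am_eqv_mono ?_ h1
    rintro a b ⟨ha, hb, e, he, hab⟩
    exact Relation.EqvGen.rel _ _ ⟨(key a).2 ha, (key b).2 hb, e, fun e' => he _, hab⟩

theorem isMinor_delE' {H G : MGraph} (h : IsMinor H G) (e : H.E) : IsMinor (H.delE e) G := by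
  obtain ⟨φ, ε, hinj, hends, hsurj, hconn⟩ := h
  refine ⟨φ, fun e' => ε e'.1, ?_, ?_, ?_, ?_⟩
  · intro a b hab
    exact Subtype.ext (hinj hab)
  · intro e'
    exact hends e'.1
  · intro v
    exact hsurj v
  · intro w w' v hw hw'
    refine Am_eqv_mono ?_ (hconn w w' v hw hw')
    rintro a b ⟨ha, hb, f, hf, hab⟩
    exact Relation.EqvGen.rel _ _ ⟨ha, hb, f, fun e' => hf _, hab⟩

open Classical in
theorem isMinor_delV' {H G : MGraph} (h : IsMinor H G) (v : H.V) : IsMinor (H.delV v) G := by
  obtain ⟨φ, ε, hinj, hends, hsurj, hconn⟩ := h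
  let φ' : G.V → Option {w : H.V // w ≠ v} := fun w =>
    (φ w).bind (fun u => if hu : u ≠ v then some ⟨u, hu⟩ else none)
  have key : ∀ (w : G.V) (x : {w : H.V // w ≠ v}), φ' w = some x ↔ φ w = some x.1 := by
    intro w x
    show (φ w).bind (fun u => if hu : u ≠ v then some ⟨u, hu⟩ else none) = some x ↔ _
    cases hw : φ w with
    | none => simp
    | some u =>
      simp only [Option.bind_some, Option.some.injEq]
      by_cases hu : u ≠ v
      · rw [dif_pos hu]
        constructor
        · intro h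
          have := Option.some_injective _ h
          rw [← this]
        · intro h
          congr 1
          exact Subtype.ext h
      · rw [dif_neg hu]
        constructor
        · intro h
          exact absurd h (by simp)
        · intro h
          exact absurd (h ▸ x.2) hu
  refine ⟨φ', fun e' => ε e'.1, ?_, ?_, ?_, ?_⟩
  · intro a b hab
    exact Subtype.ext (hinj hab)
  · intro e'
    rcases hends e'.1 with ⟨h1, h2⟩ | ⟨h1, h2⟩
    · exact Or.inl ⟨(key _ _).2 h1, (key _ _).2 h2⟩
    · exact Or.inr ⟨(key _ _).2 h1, (key _ _).2 h2⟩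
  · intro x
    obtain ⟨w, hw⟩ := hsurj x.1
    exact ⟨w, (key _ _).2 hw⟩
  · intro w w' x hw hw'
    refine Am_eqv_mono ?_ (hconn w w' x.1 ((key _ _).1 hw) ((key _ _).1 hw'))
    rintro a b ⟨ha, hb, f, hf, hab⟩
    exact Relation.EqvGen.rel _ _ ⟨(key _ _).2 ha, (key _ _).2 hb, f, fun e' => hf _, hab⟩

theorem isMinor_contr' {H G : MGraph} (h : IsMinor H G) (e : H.E)
    (hne : (H.ends e).1 ≠ (H.ends e).2) : IsMinor (H.contr e hne) G := by
  obtain ⟨φ, ε, hinj, hends, hsurj, hconn⟩ := h
  have hmgb : H.mg e hne (H.ends e).2 = ⟨(H.ends e).1, hne⟩ := by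
    unfold MGraph.mg
    rw [dif_pos rfl]
  have hmgo : ∀ (w : H.V) (hw : w ≠ (H.ends e).2), H.mg e hne w = ⟨w, hw⟩ := by
    intro w hw
    unfold MGraph.mg
    rw [dif_neg hw]
  have hmga : H.mg e hne (H.ends e).1 = ⟨(H.ends e).1, hne⟩ := hmgo _ hne
  let φ' : G.V → Option (H.contr e hne).V := fun w => (φ w).map (H.mg e hne)
  let ε' : (H.contr e hne).E → G.E := fun e' => ε e'.1
  have hA : ∀ (u : H.V) (w w' : G.V), φ w = some u → φ w' = some u →
      Relation.EqvGen (Con φ' ε' (H.mg e hne u)) w w' := by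
    intro u w w' hw hw'
    refine Am_eqv_mono ?_ (hconn w w' u hw hw')
    rintro a b ⟨ha, hb, f, hf, hab⟩
    refine Relation.EqvGen.rel _ _ ⟨?_, ?_, f, fun e' => hf _, hab⟩
    · show (φ a).map _ = _
      rw [ha]; rfl
    · show (φ b).map _ = _
      rw [hb]; rfl
  have hun : ∀ e' : (H.contr e hne).E, ε' e' ≠ ε e := by
    intro e' h
    exact e'.2 (hinj h)
  have hab : ∃ p q, φ p = some (H.ends e).1 ∧ φ q = some (H.ends e).2 ∧
      Relation.EqvGen (Con φ' ε' ⟨(H.ends e).1, hne⟩) p q := by
    rcases hends e with ⟨h1, h2⟩ | ⟨h1, h2⟩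
    · refine ⟨_, _, h1, h2, Relation.EqvGen.rel _ _ ⟨?_, ?_, ε e, hun, rfl⟩⟩
      · show (φ _).map _ = _
        rw [h1, Option.map_some, hmga]
      · show (φ _).map _ = _
        rw [h2, Option.map_some, hmgb]
    · refine ⟨_, _, h2, h1, Relation.EqvGen.symm _ _
        (Relation.EqvGen.rel _ _ ⟨?_, ?_, ε e, hun, rfl⟩)⟩
      · show (φ _).map _ = _
        rw [h1, Option.map_some, hmgb]
      · show (φ _).map _ = _
        rw [h2, Option.map_some, hmga]
  obtain ⟨p, q, hp, hq, hpq⟩ := hab
  refine ⟨φ', ε', ?_, ?_, ?_, ?_⟩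
  · intro a b hab
    exact Subtype.ext (hinj hab)
  · intro e'
    have h3 := hends e'.1
    show ((φ _).map _ = some (H.mg e hne _) ∧ (φ _).map _ = some (H.mg e hne _)) ∨
      ((φ _).map _ = some (H.mg e hne _) ∧ (φ _).map _ = some (H.mg e hne _))
    rcases h3 with ⟨h1, h2⟩ | ⟨h1, h2⟩
    · left
      rw [h1, h2]
      exact ⟨rfl, rfl⟩
    · right
      rw [h1, h2]
      exact ⟨rfl, rfl⟩
  · intro v
    obtain ⟨w, hw⟩ := hsurj v.1
    refine ⟨w, ?_⟩
    show (φ w).map _ = _
    rw [hw, Option.map_some, hmgo _ v.2]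
    rfl
  · intro w w' v hw hw'
    have hB : ∀ (x : G.V), φ' x = some v → ∃ u, φ x = some u ∧ H.mg e hne u = v := by
      intro x hx
      exact Option.map_eq_some_iff.1 hx
    have hC : ∀ (x : G.V), φ' x = some v → φ x = some v.1 ∨
        (φ x = some (H.ends e).2 ∧ v = ⟨(H.ends e).1, hne⟩) := by
      intro x hx
      obtain ⟨u, hu, huv⟩ := hB x hx
      by_cases hub : u = (H.ends e).2
      · right
        subst hub
        exact ⟨hu, by rw [← huv, hmgb]⟩
      · left
        rw [hmgo u hub] at huv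
        rw [hu, ← huv]
    have hv : H.mg e hne v.1 = v := hmgo _ v.2
    rcases hC w hw with h1 | ⟨h1, h1'⟩ <;> rcases hC w' hw' with h2 | ⟨h2, h2'⟩
    · have := hA _ w w' h1 h2
      rwa [hv] at this
    · subst h2'
      have e1 := hA _ w p h1 hp
      have e2 := hA _ q w' hq h2
      rw [hmga] at e1
      rw [hmgb] at e2
      exact Relation.EqvGen.trans _ _ _ e1 (Relation.EqvGen.trans _ _ _ hpq e2)
    · subst h1'
      have e1 := hA _ p w' hp h2
      have e2 := hA _ w q h1 hq
      rw [hmga] at e1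
      rw [hmgb] at e2
      exact Relation.EqvGen.trans _ _ _ e2 (Relation.EqvGen.trans _ _ _
        (Relation.EqvGen.symm _ _ hpq) e1)
    · subst h1'
      have e1 := hA _ w w' h1 h2
      rwa [hmgb] at e1

theorem minorClosed_fam {ι : Type} (F : ι → MGraph) :
    MGraph.MinorClosed {G | ∃ i, IsMinor G (F i)} :=
  ⟨fun _ _ h hi => h.imp fun _ h' => isMinor_iso' h' hi,
    fun _ e h => h.imp fun _ h' => isMinor_delE' h' e,
    fun _ v h => h.imp fun _ h' => isMinor_delV' h' v,
    fun _ e hne h => h.imp fun _ h' => isMinor_contr' h' e hne⟩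

end Pool.Agent.TU
end

section

/-!
# Task Em1: the states of a circuit

`cu m w c j` is the current vertex of the wire `j` before the gate number `c` (gates are numbered from `0`), `nx m w c` the next new vertex.
Proofs: `w.take (c + 1) = w.take c ++ [w[c]]` (`List.take_concat_get'`-like), so `run m (w.take (c + 1)) = stp (run m (w.take c)) w[c]` (`List.foldl_append`).
Invariants by induction on `c` (for `OkW m w`): the list of current vertices has length `m`; its entries are `≥ 1`, `< nx` and
pairwise different; `nx` is not decreasing.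
* `cu_step`, `nx_step`: from `stp`.
* `cu_inj`: if `cu m w c j = cu m w c' j'` with `c ≤ c' ≤ w.length`, `j, j' < m` then `j = j'`, and no gate number `i`, `c ≤ i < c'`, is a gate `(2, j)` (types `≥ 2`
  are all of the kind `2`), so `cu m w i j = cu m w c j` for all `c ≤ i ≤ c'`: otherwise `cu m w c' j' ≥ nx m w c > cu m w c j` for the wire `j'`, or `j' ≠ j` keeps its vertex, different.
* `cu_surj`: the vertex `v`, `1 ≤ v < nx m w w.length`, is some `cu m w c j`.
* `es_get`: the edge list.  `run_ok`: all the ends are `< nx`.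
-/

set_option autoImplicit false

namespace Pool.Agent.TU

/-- The current vertex of the wire `j` before the gate `c`. -/
def cu (m : ℕ) (w : List (ℕ × ℕ)) (c j : ℕ) : ℕ := (run m (w.take c)).1.getD j 0

/-- The next new vertex before the gate `c`. -/
def nx (m : ℕ) (w : List (ℕ × ℕ)) (c : ℕ) : ℕ := (run m (w.take c)).2.1

private theorem em1_step (m : ℕ) (w : List (ℕ × ℕ)) (c : ℕ) (hc : c < w.length) :
    run m (w.take (c + 1)) = stp (run m (w.take c)) (w[c]) := by
  unfold run
  rw [List.take_succ_eq_append_getElem hc, List.foldl_append]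
  rfl

private theorem em1_stop (m : ℕ) (w : List (ℕ × ℕ)) (c : ℕ) (hc : w.length ≤ c) :
    run m (w.take (c + 1)) = run m (w.take c) := by
  rw [List.take_of_length_le hc, List.take_of_length_le (by omega)]

private theorem em1_getD_set_eq (l : List ℕ) (i a : ℕ) (h : i < l.length) :
    (l.set i a).getD i 0 = a := by
  rw [List.getD_eq_getElem?_getD, List.getElem?_set_self h]
  rfl

private theorem em1_getD_set_ne (l : List ℕ) (i j a : ℕ) (h : i ≠ j) :
    (l.set i a).getD j 0 = l.getD j 0 := by
  rw [List.getD_eq_getElem?_getD, List.getElem?_set_ne h, List.getD_eq_getElem?_getD]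

private theorem em1_ini (m j : ℕ) (hj : j < m) : (ini m).1.getD j 0 = j + 1 := by
  simp [ini, List.getD_eq_getElem?_getD, hj]

/-- The invariant of the states. -/
private def Em1Inv (m : ℕ) (s : St) : Prop :=
  s.1.length = m ∧ (∀ j, j < m → 1 ≤ s.1.getD j 0 ∧ s.1.getD j 0 < s.2.1) ∧
    (∀ j j', j < m → j' < m → s.1.getD j 0 = s.1.getD j' 0 → j = j') ∧ 0 < s.2.1 ∧
    ∀ e ∈ s.2.2, e.1 < s.2.1 ∧ e.2 < s.2.1

private theorem em1_inv_ini (m : ℕ) : Em1Inv m (ini m) := by
  refine ⟨by simp [ini], fun j hj => ?_, fun j j' hj hj' h => ?_, by simp [ini], by simp [ini]⟩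
  · rw [em1_ini m j hj]
    refine ⟨by omega, ?_⟩
    show j + 1 < m + 1
    omega
  · rw [em1_ini m j hj, em1_ini m j' hj'] at h
    omega

private theorem em1_inv_stp {m : ℕ} {s : St} {g : ℕ × ℕ} (hs : Em1Inv m s) (hg : OkG m g) :
    Em1Inv m (stp s g) := by
  obtain ⟨h1, h2, h3, h4, h5⟩ := hs
  obtain ⟨g1, g2, g3⟩ := hg
  unfold stp
  split_ifs with c0 c1
  · refine ⟨h1, h2, h3, h4, ?_⟩
    intro e he
    rcases List.mem_cons.1 he with rfl | he
    · exact ⟨(h2 _ g1).2, (h2 _ (g2 c0)).2⟩
    · exact h5 e he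
  · refine ⟨h1, h2, h3, h4, ?_⟩
    intro e he
    rcases List.mem_cons.1 he with rfl | he
    · exact ⟨h4, (h2 _ g1).2⟩
    · exact h5 e he
  · have hl : g.2 < s.1.length := by rw [h1]; exact g1
    have key : ∀ j, j < m → (s.1.set g.2 s.2.1).getD j 0 = if g.2 = j then s.2.1 else s.1.getD j 0 := by
      intro j hj
      by_cases hjj : g.2 = j
      · rw [if_pos hjj, ← hjj]
        exact em1_getD_set_eq _ _ _ hl
      · rw [if_neg hjj]
        exact em1_getD_set_ne _ _ _ _ hjj
    refine ⟨by simp [h1], fun j hj => ?_, fun j j' hj hj' h => ?_, Nat.succ_pos _, ?_⟩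
    · show 1 ≤ (s.1.set g.2 s.2.1).getD j 0 ∧ (s.1.set g.2 s.2.1).getD j 0 < s.2.1 + 1
      rw [key j hj]
      split_ifs with hjj
      · omega
      · have := h2 j hj
        omega
    · change (s.1.set g.2 s.2.1).getD j 0 = (s.1.set g.2 s.2.1).getD j' 0 at h
      rw [key j hj, key j' hj'] at h
      have a1 := h2 j hj
      have a2 := h2 j' hj'
      split_ifs at h with b1 b2 b2
      · omega
      · omega
      · omega
      · exact h3 j j' hj hj' h
    · intro e he
      show e.1 < s.2.1 + 1 ∧ e.2 < s.2.1 + 1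
      rcases List.mem_cons.1 he with rfl | he
      · have := (h2 _ g1).2
        exact ⟨Nat.lt_succ_of_lt this, Nat.lt_succ_self _⟩
      · have := h5 e he
        omega

private theorem em1_inv {m : ℕ} {w : List (ℕ × ℕ)} (hw : OkW m w) (c : ℕ) :
    Em1Inv m (run m (w.take c)) := by
  induction c with
  | zero => exact em1_inv_ini m
  | succ c ih =>
    by_cases hc : c < w.length
    · rw [em1_step m w c hc]
      exact em1_inv_stp ih (hw _ (List.getElem_mem hc))
    · rw [em1_stop m w c (by omega)]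
      exact ih

private theorem em1_nx_step (m : ℕ) (w : List (ℕ × ℕ)) (c : ℕ) : nx m w c ≤ nx m w (c + 1) := by
  unfold nx
  by_cases hc : c < w.length
  · rw [em1_step m w c hc]
    unfold stp
    split_ifs
    · exact le_rfl
    · exact le_rfl
    · exact Nat.le_succ _
  · rw [em1_stop m w c (by omega)]

private theorem em1_nx_mono {m : ℕ} {w : List (ℕ × ℕ)} {c c' : ℕ} (h : c ≤ c') :
    nx m w c ≤ nx m w c' := by
  induction h with
  | refl => exact le_rfl
  | step _ ih => exact ih.trans (em1_nx_step m w _)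

private theorem em1_len (m : ℕ) (w : List (ℕ × ℕ)) (c : ℕ) (hc : c ≤ w.length) :
    (run m (w.take c)).2.2.length = c := by
  induction c with
  | zero => rfl
  | succ c ih =>
    have ih := ih (by omega)
    rw [em1_step m w c (by omega)]
    unfold stp
    split_ifs
    · rw [List.length_cons, ih]
    · rw [List.length_cons, ih]
    · rw [List.length_cons, ih]

private theorem em1_es (m : ℕ) (w : List (ℕ × ℕ)) (c : ℕ) (hc : c < w.length) (d : ℕ)
    (h1 : c < d) (h2 : d ≤ w.length) :
    (run m (w.take d)).2.2[d - 1 - c]? = some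
      (if (w[c]).1 = 0 then (cu m w c (w[c]).2, cu m w c ((w[c]).2 + 1))
      else if (w[c]).1 = 1 then (0, cu m w c (w[c]).2)
      else (cu m w c (w[c]).2, nx m w c)) := by
  induction d with
  | zero => omega
  | succ d ih =>
    rw [em1_step m w d (by omega)]
    by_cases hcd : c = d
    · subst hcd
      have e0 : c + 1 - 1 - c = 0 := by omega
      rw [e0]
      unfold stp cu nx
      split_ifs <;> rfl
    · have e1 : d + 1 - 1 - c = (d - 1 - c) + 1 := by omega
      rw [e1]
      have ih := ih (by omega) (by omega)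
      have key : (stp (run m (w.take d)) (w[d])).2.2[d - 1 - c + 1]? =
          (run m (w.take d)).2.2[d - 1 - c]? := by
        unfold stp
        split_ifs <;> exact List.getElem?_cons_succ
      rw [key]
      exact ih

private theorem em1_keep {m : ℕ} {w : List (ℕ × ℕ)} (c j : ℕ) (hc : c < w.length)
    (h : (w[c]).1 = 0 ∨ (w[c]).1 = 1 ∨ (w[c]).2 ≠ j) : cu m w (c + 1) j = cu m w c j := by
  unfold cu
  rw [em1_step m w c hc]
  unfold stp
  split_ifs with c0 c1
  · rfl
  · rfl
  · have h2 : (w[c]).2 ≠ j := by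
      rcases h with h | h | h
      · exact absurd h c0
      · exact absurd h c1
      · exact h
    exact em1_getD_set_ne _ _ _ _ h2

private theorem em1_new {m : ℕ} {w : List (ℕ × ℕ)} (hw : OkW m w) (c : ℕ) (hc : c < w.length)
    (h0 : (w[c]).1 ≠ 0) (h1 : (w[c]).1 ≠ 1) : cu m w (c + 1) (w[c]).2 = nx m w c := by
  unfold cu nx
  rw [em1_step m w c hc]
  unfold stp
  rw [if_neg h0, if_neg h1]
  have hl := (em1_inv hw c).1
  exact em1_getD_set_eq _ _ _ (by rw [hl]; exact (hw _ (List.getElem_mem hc)).1)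

private theorem em1_tri {m : ℕ} {w : List (ℕ × ℕ)} (hw : OkW m w) (c j : ℕ) (hj : j < m) (d : ℕ)
    (hd : c + d ≤ w.length) :
    ((∀ i, c ≤ i → i ≤ c + d → cu m w i j = cu m w c j) ∧
      ∀ (i : ℕ) (hi : i < w.length), c ≤ i → i < c + d →
        (w[i]).1 = 0 ∨ (w[i]).1 = 1 ∨ (w[i]).2 ≠ j) ∨ nx m w c ≤ cu m w (c + d) j := by
  induction d with
  | zero =>
    left
    refine ⟨fun i h1 h2 => ?_, fun i _ h1 h2 => absurd h1 (by omega)⟩
    have : i = c := by omega
    rw [this]
  | succ d ih =>
    have hlt : c + d < w.length := by omega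
    have e1 : c + (d + 1) = c + d + 1 := by omega
    rw [e1]
    by_cases hk : (w[c + d]).1 = 0 ∨ (w[c + d]).1 = 1 ∨ (w[c + d]).2 ≠ j
    · have hkeep := em1_keep (m := m) (c + d) j hlt hk
      rcases ih (by omega) with ⟨a1, a2⟩ | a
      · left
        refine ⟨fun i h1 h2 => ?_, fun i hi h1 h2 => ?_⟩
        · by_cases hi : i = c + d + 1
          · rw [hi, hkeep]
            exact a1 _ (by omega) le_rfl
          · exact a1 i h1 (by omega)
        · by_cases hi' : i = c + d
          · subst hi'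
            exact hk
          · exact a2 i hi h1 (by omega)
      · right
        rw [hkeep]
        exact a
    · right
      push Not at hk
      have hn := em1_new hw (c + d) hlt hk.1 hk.2.1
      rw [hk.2.2] at hn
      rw [hn]
      exact em1_nx_mono (by omega)

theorem cu_zero (m : ℕ) (w : List (ℕ × ℕ)) (j : ℕ) (hj : j < m) : cu m w 0 j = j + 1 := by
  exact em1_ini m j hj

theorem cu_pos {m : ℕ} {w : List (ℕ × ℕ)} (hw : OkW m w) (c j : ℕ) (hj : j < m) :
    1 ≤ cu m w c j ∧ cu m w c j < nx m w c := by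
  exact (em1_inv hw c).2.1 j hj

theorem nx_mono {m : ℕ} {w : List (ℕ × ℕ)} {c c' : ℕ} (h : c ≤ c') : nx m w c ≤ nx m w c' := by
  exact em1_nx_mono h

/-- The wire `j` keeps its vertex, unless the gate is of the kind `2` on `j`. -/
theorem cu_keep {m : ℕ} {w : List (ℕ × ℕ)} (c j : ℕ) (hc : c < w.length) (hj : j < m)
    (h : (w[c]).1 = 0 ∨ (w[c]).1 = 1 ∨ (w[c]).2 ≠ j) : cu m w (c + 1) j = cu m w c j := by
  exact em1_keep c j hc h

theorem cu_new {m : ℕ} {w : List (ℕ × ℕ)} (hw : OkW m w) (c : ℕ) (hc : c < w.length)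
    (h0 : (w[c]).1 ≠ 0) (h1 : (w[c]).1 ≠ 1) : cu m w (c + 1) (w[c]).2 = nx m w c := by
  exact em1_new hw c hc h0 h1

theorem cu_inj {m : ℕ} {w : List (ℕ × ℕ)} (hw : OkW m w) {c c' j j' : ℕ} (hcc : c ≤ c')
    (hc : c' ≤ w.length) (hj : j < m) (hj' : j' < m) (h : cu m w c j = cu m w c' j') :
    j = j' ∧ (∀ i, c ≤ i → i ≤ c' → cu m w i j = cu m w c j) ∧
      ∀ (i : ℕ) (hi : i < w.length), c ≤ i → i < c' →
        (w[i]).1 = 0 ∨ (w[i]).1 = 1 ∨ (w[i]).2 ≠ j := by
  obtain ⟨d, rfl⟩ := Nat.exists_eq_add_of_le hcc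
  rcases em1_tri hw c j' hj' d hc with ⟨a1, a2⟩ | a
  · have e1 := a1 (c + d) (by omega) le_rfl
    have e2 : j = j' := (em1_inv hw c).2.2.1 j j' hj hj' (h.trans e1)
    subst e2
    exact ⟨rfl, a1, a2⟩
  · have e1 := ((em1_inv hw c).2.1 j hj).2
    have e2 : cu m w c j < nx m w c := e1
    rw [h] at e2
    omega

theorem cu_surj {m : ℕ} {w : List (ℕ × ℕ)} (hw : OkW m w) (v : ℕ) (h1 : 1 ≤ v)
    (h2 : v < nx m w w.length) : ∃ c j, c ≤ w.length ∧ j < m ∧ cu m w c j = v := by
  have key : ∀ n, n ≤ w.length → v < nx m w n → ∃ c j, c ≤ n ∧ j < m ∧ cu m w c j = v := by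
    intro n
    induction n with
    | zero =>
      intro _ hv
      have hv' : v < m + 1 := hv
      exact ⟨0, v - 1, le_rfl, by omega, by
        have := em1_ini m (v - 1) (by omega)
        show (ini m).1.getD (v - 1) 0 = v
        rw [this]
        omega⟩
    | succ n ih =>
      intro hn hv
      by_cases hv' : v < nx m w n
      · obtain ⟨c, j, e1, e2, e3⟩ := ih (by omega) hv'
        exact ⟨c, j, by omega, e2, e3⟩
      · have hlt : n < w.length := by omega
        have hcase : (w[n]).1 ≠ 0 ∧ (w[n]).1 ≠ 1 ∧ v = nx m w n := by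
          unfold nx at hv hv' ⊢
          rw [em1_step m w n hlt] at hv
          unfold stp at hv
          split_ifs at hv with c0 c1
          · exact absurd hv hv'
          · exact absurd hv hv'
          · refine ⟨c0, c1, ?_⟩
            change v < (run m (w.take n)).2.1 + 1 at hv
            omega
        refine ⟨n + 1, (w[n]).2, le_rfl, (hw _ (List.getElem_mem hlt)).1, ?_⟩
        rw [em1_new hw n hlt hcase.1 hcase.2.1]
        exact hcase.2.2.symm
  exact key w.length le_rfl h2

theorem es_length (m : ℕ) (w : List (ℕ × ℕ)) : (run m w).2.2.length = w.length := by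
  have := em1_len m w w.length le_rfl
  rwa [List.take_length] at this

/-- The edge of the gate `c`. -/
theorem es_get (m : ℕ) (w : List (ℕ × ℕ)) (c : ℕ) (hc : c < w.length)
    (h : w.length - 1 - c < (run m w).2.2.length) :
    (run m w).2.2[w.length - 1 - c] =
      if (w[c]).1 = 0 then (cu m w c (w[c]).2, cu m w c ((w[c]).2 + 1))
      else if (w[c]).1 = 1 then (0, cu m w c (w[c]).2)
      else (cu m w c (w[c]).2, nx m w c) := by
  have := em1_es m w c hc w.length hc le_rfl
  rw [List.take_length, List.getElem?_eq_getElem h] at this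
  exact Option.some.inj this

theorem run_ok {m : ℕ} {w : List (ℕ × ℕ)} (hw : OkW m w) :
    ∀ e ∈ (run m w).2.2, e.1 < (run m w).2.1 ∧ e.2 < (run m w).2.1 := by
  have := (em1_inv hw w.length).2.2.2.2
  rwa [List.take_length] at this

theorem mk_n {m : ℕ} {w : List (ℕ × ℕ)} (hw : OkW m w) : (mk m w).n = (run m w).2.1 := by
  rw [mk, dif_pos (run_ok hw)]

theorem mk_es {m : ℕ} {w : List (ℕ × ℕ)} (hw : OkW m w) : (mk m w).es = (run m w).2.2 := by
  rw [mk, dif_pos (run_ok hw)]

end Pool.Agent.TU
end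

section

/-!
# Task Ta: components

Proofs.
* `comps_colorings`: the maps `σ : G.V → Bool` with `σ a = σ b` for all the edges `(a, b)` in `A` are the maps which factor through `Quot r`
  (`Quot.lift`, bijection with `Quot r → Bool`; `Nat.card (Quot r → Bool) = 2 ^ Nat.card (Quot r)`, `Nat.card_fun`).
* `comps_anti`: for `A ⊆ B` the map `Quot r_A → Quot r_B` is surjective (`Quot.map`), `Finite.card_le_of_surjective` / `Nat.card_le_card_of_surjective`.
* `comps_le`: `G.V → Quot r` is surjective.
* `card_le_comps`: induction on `A` (`Finset.induction_on`): `A = ∅`: `Quot r` is `G.V` (`Quot.mk` is injective: `r` is empty; `Quot.eq` and `EqvGen`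
  of an empty relation).  `insert e A`: `comps (insert e A) + 1 ≥ comps A`: the map `Quot r_A → Quot r_(insert e A)` is injective outside of the class of one end
  of `e`: the number of colourings argument is easier: by `comps_colorings` it is enough that the number of colourings of `A` is at most twice the number for `insert e A`:
  map a colouring `σ` of `A` with `σ a ≠ σ b` (ends `a, b` of `e`) to `σ` with all the spins in the component of `b` reversed (the component with respect to `A`); this is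
  a colouring of `insert e A`, and the map is injective.  So `2 ^ comps A ≤ 2 * 2 ^ comps (insert e A)`.
-/

set_option autoImplicit false

namespace Pool.Agent.TU.MGraph

open Classical in
theorem comps_colorings (G : MGraph) (A : Finset G.E) :
    (Finset.univ.filter (fun σ : G.V → Bool =>
      ∀ e ∈ A, σ (G.ends e).1 = σ (G.ends e).2)).card = 2 ^ G.comps A := by
  rw [← Fintype.card_subtype, ← Nat.card_eq_fintype_card]
  have e1 : {σ : G.V → Bool // ∀ e ∈ A, σ (G.ends e).1 = σ (G.ends e).2} ≃
      (Quot (fun a b : G.V => ∃ e ∈ A, G.ends e = (a, b)) → Bool) :=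
    { toFun := fun σ => Quot.lift σ.1 (by
        rintro a b ⟨e, he, hab⟩
        have h := σ.2 e he
        rw [hab] at h
        exact h)
      invFun := fun f => ⟨fun a => f (Quot.mk _ a), fun e he =>
        congrArg f (Quot.sound ⟨e, he, rfl⟩)⟩
      left_inv := fun σ => Subtype.ext (funext fun a => rfl)
      right_inv := fun f => funext fun q => Quot.inductionOn q fun a => rfl }
  rw [Nat.card_congr e1, Nat.card_fun, Nat.card_eq_fintype_card (α := Bool), Fintype.card_bool]
  rfl

theorem comps_anti (G : MGraph) {A B : Finset G.E} (h : A ⊆ B) : G.comps B ≤ G.comps A := by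
  unfold comps
  refine Nat.card_le_card_of_surjective
    (Quot.map id (by rintro a b ⟨e, he, hab⟩; exact ⟨e, h he, hab⟩)) ?_
  intro q
  induction q using Quot.inductionOn with
  | h a => exact ⟨Quot.mk _ a, rfl⟩

theorem comps_le (G : MGraph) (A : Finset G.E) : G.comps A ≤ Fintype.card G.V := by
  unfold comps
  rw [← Nat.card_eq_fintype_card]
  refine Nat.card_le_card_of_surjective (Quot.mk _) ?_
  intro q
  induction q using Quot.inductionOn with
  | h a => exact ⟨a, rfl⟩

open Classical in
private theorem Ta_insert (G : MGraph) (A : Finset G.E) (e : G.E) :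
    G.comps A ≤ G.comps (insert e A) + 1 := by
  obtain ⟨r, hr⟩ : ∃ r : G.V → G.V → Prop, r = fun a b => ∃ e ∈ A, G.ends e = (a, b) := ⟨_, rfl⟩
  have hA : G.comps A = Nat.card (Quot r) := by
    rw [hr]
    rfl
  obtain ⟨f, hf⟩ : ∃ f : G.V → Quot r, ∀ v, f v =
      if Quot.mk r v = Quot.mk r (G.ends e).2 then Quot.mk r (G.ends e).1 else Quot.mk r v :=
    ⟨_, fun v => rfl⟩
  have hlift : ∀ x y : G.V, (∃ e' ∈ insert e A, G.ends e' = (x, y)) → f x = f y := by
    rintro x y ⟨e', he', hxy⟩
    rcases Finset.mem_insert.1 he' with h1 | h1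
    · rw [h1] at hxy
      have hx : (G.ends e).1 = x := by rw [hxy]
      have hy : (G.ends e).2 = y := by rw [hxy]
      rw [hf, hf, hx, hy, if_pos (rfl : Quot.mk r y = Quot.mk r y)]
      by_cases h2 : Quot.mk r x = Quot.mk r y
      · rw [if_pos h2]
      · rw [if_neg h2]
    · have h2 : Quot.mk r x = Quot.mk r y := by
        refine Quot.sound ?_
        rw [hr]
        exact ⟨e', h1, hxy⟩
      rw [hf, hf, h2]
  have hsurj : Function.Surjective (fun o : Option
      (Quot fun a b : G.V => ∃ e' ∈ insert e A, G.ends e' = (a, b)) =>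
      o.elim (Quot.mk r (G.ends e).2) (Quot.lift f hlift)) := by
    intro q
    induction q using Quot.inductionOn with
    | h v =>
      by_cases h2 : Quot.mk r v = Quot.mk r (G.ends e).2
      · exact ⟨none, h2.symm⟩
      · refine ⟨some (Quot.mk _ v), ?_⟩
        show f v = Quot.mk r v
        rw [hf, if_neg h2]
  have h3 := Nat.card_le_card_of_surjective _ hsurj
  rw [Finite.card_option] at h3
  rw [hA]
  exact h3

theorem card_le_comps (G : MGraph) (A : Finset G.E) :
    Fintype.card G.V ≤ G.comps A + A.card := by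
  classical
  induction A using Finset.induction_on with
  | empty =>
    rw [Finset.card_empty, add_zero, ← Nat.card_eq_fintype_card]
    unfold comps
    refine Nat.card_le_card_of_surjective
      (Quot.lift id (by rintro a b ⟨e, he, _⟩; exact absurd he (Finset.notMem_empty e))) ?_
    intro a
    exact ⟨Quot.mk _ a, rfl⟩
  | insert e A he ih =>
    rw [Finset.card_insert_of_notMem he]
    have h1 := Ta_insert G A e
    omega

end Pool.Agent.TU.MGraph
end

section

/-!
# Task Ga: the fermionic swap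

Proofs.  `funext σ`, unfold everything (`iv_cons`, `iop`, `opR`, `opE`, `fl`), case distinction on `σ j`, `σ (j + 1)` (4 cases), `simp` with
`Function.update` at `j` and `j + 1` (`j ≠ j + 1`), then a linear identity: `linear_combination (..) * hI` (all the coefficients are polynomials in `I`).
It is convenient to introduce the four configurations `σ, fl j σ, fl (j + 1) σ, fl j (fl (j + 1) σ)`, to show that `fl` commutes and is an involution, and to
`generalize` the four values of `f`.
Checked by computer.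
-/

set_option autoImplicit false

namespace Pool.Agent.TU

theorem fl_fl (j : ℕ) (σ : ℕ → Bool) : fl j (fl j σ) = σ := by
  funext i
  unfold fl
  by_cases h : i = j
  · subst h; simp
  · simp [Function.update_of_ne h]

theorem fl_comm (i j : ℕ) (σ : ℕ → Bool) : fl i (fl j σ) = fl j (fl i σ) := by
  by_cases hij : i = j
  · rw [hij]
  · unfold fl
    rw [Function.update_of_ne hij, Function.update_of_ne (fun h => hij h.symm)]
    exact Function.update_comm (fun h => hij h.symm) _ _ _

theorem fl_self (j : ℕ) (σ : ℕ → Bool) : fl j σ j = !σ j := by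
  simp [fl]

theorem fl_ne {i j : ℕ} (h : i ≠ j) (σ : ℕ → Bool) : fl j σ i = σ i := by
  simp [fl, Function.update_of_ne h]

/-- Twice the fermionic swap of the wires `j, j + 1`. -/
def FF {K : Type} [CommRing K] (j : ℕ) (f : (ℕ → Bool) → K) : (ℕ → Bool) → K := fun σ =>
  if σ j = σ (j + 1) then f σ + f (fl j σ) + f (fl (j + 1) σ) - f (fl j (fl (j + 1) σ))
  else -f σ + f (fl j σ) + f (fl (j + 1) σ) + f (fl j (fl (j + 1) σ))

theorem FF_smul {K : Type} [CommRing K] (j : ℕ) (c : K) (f : (ℕ → Bool) → K) :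
    FF j (fun σ => c * f σ) = fun σ => c * FF j f σ := by
  funext σ
  unfold FF
  split_ifs <;> ring

theorem iv_fS {K : Type} [CommRing K] (I : K) (hI : I * I = -1) (y : K) (j : ℕ)
    (f : (ℕ → Bool) → K) : iv (-I) (-I) y (fS j) f = fun σ => (-2 * I) * FF j f σ := by
  have e : iv (-I) (-I) y (fS j) f =
      opR j 1 (-I) (opE j (1 + -I) (1 - -I) (opE (j + 1) (1 + -I) (1 - -I) (opR j 1 (-I) f))) := by
    unfold fS
    rw [iv_cons, iv_cons, iv_cons, iv_nil]
    simp [iop]
  rw [e]
  funext σ
  have hn : j ≠ j + 1 := by omega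
  have hn' : j + 1 ≠ j := by omega
  simp only [opR, opE, FF]
  have a1 : fl j σ j = !σ j := fl_self j σ
  have a2 : fl j σ (j + 1) = σ (j + 1) := fl_ne hn' σ
  have a3 : fl (j + 1) σ (j + 1) = !σ (j + 1) := fl_self (j + 1) σ
  have a4 : fl (j + 1) σ j = σ j := fl_ne hn σ
  have a5 : fl (j + 1) (fl j σ) j = !σ j := by rw [fl_ne hn, a1]
  have a6 : fl (j + 1) (fl j σ) (j + 1) = !σ (j + 1) := by rw [fl_self, a2]
  have a7 : fl j (fl (j + 1) σ) = fl (j + 1) (fl j σ) := fl_comm _ _ _
  rw [a1, a2, a3, a4, a5, a6, a7]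
  generalize f σ = w
  generalize f (fl j σ) = w1
  generalize f (fl (j + 1) σ) = w2
  generalize f (fl (j + 1) (fl j σ)) = w12
  rcases Bool.eq_false_or_eq_true (σ j) with h | h <;>
    rcases Bool.eq_false_or_eq_true (σ (j + 1)) with h' | h' <;> simp only [h, h'] <;> simp <;>
    first
    | linear_combination (w + w12 + I * (w1 + w2)) * hI
    | linear_combination (w * (I ^ 2 - 2 * I) + (w1 + w2) * I + w12 * (I ^ 2 + 2 * I)) * hI
    | linear_combination (-(w * (I ^ 2 - 2 * I) + (w1 + w2) * I + w12 * (I ^ 2 + 2 * I))) * hI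

end Pool.Agent.TU
end

section

/-!
# Task Gb: the swap of the wires `0` and `1`

Proof.  `ts0 = fS 0 ++ cz`, `iv_append`, `iv_fS`.  Let `a := σ 0`, `b := σ 1`; everything happens in the four values of `f` at `σ, fl 0 σ, fl 1 σ, fl 0 (fl 1 σ)`.
With `z = u = -I`: `E f (σ) = (1 - I) f σ + (1 + I) f (fl σ)`.  The word `cz` is, up to the factor `-64`, the operator
`CZ f (σ) = (f σ + f (fl 0 σ) + f (fl 1 σ) - f (fl 0 (fl 1 σ))) / 2`; so `iv cz f = fun σ => -32 * (..)`, and `FF 0` of it is `f` at the exchanged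
configuration.  Suggestion: first show `iv (-I) (-I) y cz f = fun σ => -32 * (f σ + f (fl 0 σ) + f (fl 1 σ) - f (fl 0 (fl 1 σ)))` by evaluating gate by gate: a
lemma for `[(2, 0)]`, `[(1, 0)]`, `[(0, 0)]` acting on functions of the form `fun σ => g (σ 0) (σ 1) σ'`...; or by brute force: 4 cases for `(σ 0, σ 1)`, `simp`, `linear_combination`.
A good way: for fixed `σ` define `F a b := f (σ with spins 0, 1 := a, b)` and translate all the gates into operators on `Bool → Bool → K`; then `decide`-like case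
distinction and `ring_nf`/`linear_combination`.  `sw 0 σ = σ` if `σ 0 = σ 1` and `fl 0 (fl 1 σ)` otherwise.
Checked by computer.
-/

set_option autoImplicit false

namespace Pool.Agent.TU

theorem sw_eq (j : ℕ) (σ : ℕ → Bool) :
    sw j σ = if σ j = σ (j + 1) then σ else fl j (fl (j + 1) σ) := by
  have hj : j ≠ j + 1 := (Nat.succ_ne_self j).symm
  funext i
  unfold sw
  by_cases h1 : i = j
  · subst h1
    rw [Equiv.swap_apply_left]
    split_ifs with h
    · exact h.symm
    · rw [fl_self, fl_ne hj]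
      cases ha : σ i <;> cases hb : σ (i + 1) <;> simp_all
  · by_cases h2 : i = j + 1
    · subst h2
      rw [Equiv.swap_apply_right]
      split_ifs with h
      · exact h
      · rw [fl_ne h1, fl_self]
        cases ha : σ j <;> cases hb : σ (j + 1) <;> simp_all
    · rw [Equiv.swap_apply_of_ne_of_ne h1 h2]
      split_ifs with h
      · rfl
      · rw [fl_ne h1, fl_ne h2]

/-- The spins `0` and `1` of `σ` replaced by `a` and `b`. -/
private def Gb_st (σ : ℕ → Bool) (a b : Bool) : ℕ → Bool :=
  fun i => if i = 0 then a else if i = 1 then b else σ i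

private theorem Gb_st_self (σ : ℕ → Bool) : Gb_st σ (σ 0) (σ 1) = σ := by
  funext i
  unfold Gb_st
  split_ifs with h1 h2
  · rw [h1]
  · rw [h2]
  · rfl

private theorem Gb_st0 (σ : ℕ → Bool) (a b : Bool) : Gb_st σ a b 0 = a := by
  simp [Gb_st]

private theorem Gb_st1 (σ : ℕ → Bool) (a b : Bool) : Gb_st σ a b 1 = b := by
  simp [Gb_st]

private theorem Gb_fl0 (σ : ℕ → Bool) (a b : Bool) : fl 0 (Gb_st σ a b) = Gb_st σ (!a) b := by
  funext i
  by_cases h1 : i = 0
  · subst h1
    rw [fl_self, Gb_st0, Gb_st0]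
  · rw [fl_ne h1]
    simp [Gb_st, h1]

private theorem Gb_fl1 (σ : ℕ → Bool) (a b : Bool) : fl 1 (Gb_st σ a b) = Gb_st σ a (!b) := by
  funext i
  by_cases h1 : i = 1
  · subst h1
    rw [fl_self, Gb_st1, Gb_st1]
  · rw [fl_ne h1]
    simp [Gb_st, h1]

/-- The function `f` as a function of the spins `0` and `1`. -/
private def Gb_r {K : Type} (σ : ℕ → Bool) (f : (ℕ → Bool) → K) : Bool → Bool → K :=
  fun a b => f (Gb_st σ a b)

private def Gb_0 {K : Type} [CommRing K] (I : K) (F : Bool → Bool → K) : Bool → Bool → K :=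
  fun a b => (if a = b then 1 else -I) * F a b

private def Gb_1 {K : Type} [CommRing K] (I : K) (F : Bool → Bool → K) : Bool → Bool → K :=
  fun a b => (if a = true then 1 else -I) * ((if b = true then 1 else -I) * F a b)

private def Gb_2 {K : Type} [CommRing K] (I : K) (F : Bool → Bool → K) : Bool → Bool → K :=
  fun a b => -2 * I * F a b + 2 * F a (!b) + 2 * F (!a) b + 2 * I * F (!a) (!b)

private theorem Gb_r0 {K : Type} [CommRing K] (I y : K) (σ : ℕ → Bool) (f : (ℕ → Bool) → K) :
    Gb_r σ (iop (-I) (-I) y (0, 0) f) = Gb_0 I (Gb_r σ f) := by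
  funext a b
  simp only [Gb_r, iop, opR, Gb_0, if_true, Gb_st0, zero_add, Gb_st1]

private theorem Gb_r1 {K : Type} [CommRing K] (I y : K) (σ : ℕ → Bool) (f : (ℕ → Bool) → K) :
    Gb_r σ (iop (-I) (-I) y (1, 0) f) = Gb_1 I (Gb_r σ f) := by
  funext a b
  simp [Gb_r, iop, opA, Gb_1, Gb_st0, Gb_st1]

private theorem Gb_r2 {K : Type} [CommRing K] (I : K) (hI : I * I = -1) (y : K) (σ : ℕ → Bool)
    (f : (ℕ → Bool) → K) :
    Gb_r σ (iop (-I) (-I) y (2, 0) f) = Gb_2 I (Gb_r σ f) := by
  funext a b
  have h : iop (-I) (-I) y (2, 0) f = opE 0 (1 + -I) (1 - -I) (opE 1 (1 + -I) (1 - -I) f) := by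
    simp [iop]
  simp only [h, Gb_r, opE, Gb_2, Gb_fl0, Gb_fl1]
  generalize f (Gb_st σ a b) = x1
  generalize f (Gb_st σ (!a) b) = x2
  generalize f (Gb_st σ a (!b)) = x3
  generalize f (Gb_st σ (!a) (!b)) = x4
  linear_combination (x1 - x2 - x3 + x4) * hI

private theorem Gb_cz {K : Type} [CommRing K] (I : K) (hI : I * I = -1) (F : Bool → Bool → K) :
    Gb_2 I (Gb_1 I (Gb_2 I (Gb_0 I (Gb_2 I (Gb_1 I F))))) =
      fun a b => -32 * (F a b + F (!a) b + F a (!b) - F (!a) (!b)) := by
  have h2 : I ^ 2 = -1 := by rw [sq, hI]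
  have h3 : I ^ 3 = -I := by rw [pow_succ, h2]; ring
  have h4 : I ^ 4 = 1 := by rw [pow_succ, h3]; linear_combination -hI
  have h5 : I ^ 5 = I := by rw [pow_succ, h4]; ring
  have h6 : I ^ 6 = -1 := by rw [pow_succ, h5, hI]
  have h7 : I ^ 7 = -I := by rw [pow_succ, h6]; ring
  have h8 : I ^ 8 = 1 := by rw [pow_succ, h7]; linear_combination -hI
  funext a b
  cases a <;> cases b <;>
    simp only [Gb_0, Gb_1, Gb_2, Bool.not_true, Bool.not_false, if_true, if_false, reduceCtorEq] <;>
    ring_nf <;> simp only [h2, h3, h4, h5, h6, h7, h8] <;> ring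

theorem iv_ts0 {K : Type} [CommRing K] (I : K) (hI : I * I = -1) (y : K)
    (f : (ℕ → Bool) → K) : iv (-I) (-I) y ts0 f = fun σ => (256 * I) * f (sw 0 σ) := by
  funext σ
  unfold ts0
  rw [iv_append, iv_fS I hI]
  obtain ⟨g, hg⟩ : ∃ g, g = iv (-I) (-I) y [(2, 0), (1, 0), (2, 0), (0, 0), (2, 0), (1, 0)] f :=
    ⟨_, rfl⟩
  rw [← hg]
  have hr : Gb_r σ g = fun a b => -32 * (Gb_r σ f a b + Gb_r σ f (!a) b + Gb_r σ f a (!b)
      - Gb_r σ f (!a) (!b)) := by
    rw [hg]
    simp only [iv_cons, iv_nil, Gb_r0, Gb_r1, Gb_r2 I hI]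
    exact Gb_cz I hI _
  have hv : ∀ a b, g (Gb_st σ a b) = -32 * (f (Gb_st σ a b) + f (Gb_st σ (!a) b)
      + f (Gb_st σ a (!b)) - f (Gb_st σ (!a) (!b))) := fun a b => congrFun (congrFun hr a) b
  rw [sw_eq]
  have key : ∀ a b, (-2 * I) * FF 0 g (Gb_st σ a b) = (256 * I) * f
      (if (Gb_st σ a b) 0 = (Gb_st σ a b) (0 + 1) then Gb_st σ a b
        else fl 0 (fl (0 + 1) (Gb_st σ a b))) := by
    intro a b
    cases a <;> cases b <;>
      simp only [FF, zero_add, Gb_st0, Gb_st1, Gb_fl0, Gb_fl1, hv, Bool.not_true, Bool.not_false,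
        if_true, if_false, reduceCtorEq] <;> ring
  have h := key (σ 0) (σ 1)
  rw [Gb_st_self] at h
  exact h

end Pool.Agent.TU
end
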