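import Pool.Agent.Lib.MP_e6c033_lc.TU.MoDefs
import Pool.Agent.Lib.MP_e6c033_lc.TU.Defs

section

/-!
# Task Mo1: deletion of an unused vertex

Proof.  `φ' w := φ w.1`; `ε' e := ⟨ε e, _⟩` (both ends of `ε e` have `φ = some _`, so they are not `v`).  `Con φ' ε'` on the vertices `≠ v`:
a path in `EqvGen (Con φ ε u)` stays in the branch set of `u`, which does not contain `v` (`φ v = none`): show by induction on
`EqvGen` (for `a b` with `φ a = some u`; `Relation.EqvGen` induction: rel, refl, symm, trans; in the middle of `trans` the vertex has `φ = some u`: for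
`EqvGen (Con φ ε u) a b` one has `a = b` or both `φ a = some u` and `φ b = some u`), or use the map of `EqvGen`.
-/

set_option autoImplicit false

namespace Pool.Agent.TU

private theorem Mo1_stay {H G : MGraph} {φ : G.V → Option H.V} {ε : H.E → G.E} {u : H.V}
    {a b : G.V} (hab : Relation.EqvGen (Con φ ε u) a b) :
    a = b ∨ (φ a = some u ∧ φ b = some u) := by
  induction hab with
  | rel a b h => exact Or.inr ⟨h.1, h.2.1⟩
  | refl a => exact Or.inl rfl
  | symm a b _ ih =>
    rcases ih with h | h
    · exact Or.inl h.symm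
    · exact Or.inr ⟨h.2, h.1⟩
  | trans a b c _ _ ih1 ih2 =>
    rcases ih1 with h | h
    · rw [h]; exact ih2
    · rcases ih2 with h' | h'
      · rw [← h']; exact Or.inr h
      · exact Or.inr ⟨h.1, h'.2⟩

theorem isMinor_delV {H G : MGraph} {φ : G.V → Option H.V} {ε : H.E → G.E} (h : IsModel H G φ ε)
    (v : G.V) (hv : φ v = none) : IsMinor H (G.delV v) := by
  have hne : ∀ (w : G.V) (u : H.V), φ w = some u → w ≠ v := by
    intro w u hw hwv
    rw [hwv, hv] at hw
    exact absurd hw (by simp)
  have he : ∀ e : H.E, (G.ends (ε e)).1 ≠ v ∧ (G.ends (ε e)).2 ≠ v := by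
    intro e
    rcases h.ends e with h1 | h1
    · exact ⟨hne _ _ h1.1, hne _ _ h1.2⟩
    · exact ⟨hne _ _ h1.1, hne _ _ h1.2⟩
  let φ' : (G.delV v).V → Option H.V := fun w => φ w.1
  let ε' : H.E → (G.delV v).E := fun e => ⟨ε e, he e⟩
  refine ⟨φ', ε', ?_, ?_, ?_, ?_⟩
  · intro e1 e2 h12
    exact h.inj (congrArg Subtype.val h12)
  · intro e
    exact h.ends e
  · intro u
    obtain ⟨w, hw⟩ := h.surj u
    exact ⟨⟨w, hne w u hw⟩, hw⟩
  · intro w w' u hw hw'
    have key : ∀ a b : G.V, Relation.EqvGen (Con φ ε u) a b → ∀ (ha : a ≠ v) (hb : b ≠ v),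
        Relation.EqvGen (Con (H := H) (G := G.delV v) φ' ε' u) ⟨a, ha⟩ ⟨b, hb⟩ := by
      intro a b hab
      induction hab with
      | rel a b hc =>
        intro ha hb
        obtain ⟨h1, h2, f, h3, h4⟩ := hc
        refine Relation.EqvGen.rel _ _ ⟨h1, h2, ⟨f, ?_⟩, ?_, ?_⟩
        · rw [h4]; exact ⟨ha, hb⟩
        · intro e h5
          exact h3 e (congrArg Subtype.val h5)
        · show ((⟨(G.ends f).1, _⟩, ⟨(G.ends f).2, _⟩) : (G.delV v).V × (G.delV v).V) = _
          apply Prod.ext
          · apply Subtype.ext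
            show (G.ends f).1 = a
            rw [h4]
          · apply Subtype.ext
            show (G.ends f).2 = b
            rw [h4]
      | refl a => intro ha hb; exact Relation.EqvGen.refl _
      | symm a b _ ih => intro ha hb; exact Relation.EqvGen.symm _ _ (ih hb ha)
      | trans a b c hab _ ih1 ih2 =>
        intro ha hc
        have hb : b ≠ v := by
          rcases Mo1_stay hab with h1 | h1
          · rw [← h1]; exact ha
          · exact hne b u h1.2
        exact Relation.EqvGen.trans _ _ _ (ih1 ha hb) (ih2 hb hc)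
    exact key w.1 w'.1 (h.conn w.1 w'.1 u hw hw') w.2 w'.2

end Pool.Agent.TU
end

section

/-!
# Task Mo2: contraction of an unused edge inside a branch set

Proof.  `φ' w := φ w.1`, so `φ' (G.mg f h w) = φ w` for all `w` (by `hφ`).  `ε' e := ⟨ε e, _⟩`.  `ends`: `(G.contr f h).ends (ε' e) = (mg .., mg ..)`.
`surj`: `mg` of a vertex of the branch set.  `conn`: the map `G.mg f h` sends `Con φ ε v a b` given by an edge `g ≠ f` to `Con φ' ε' v (mg a) (mg b)`
(edge `⟨g, _⟩`), and for `g = f` to `mg a = mg b`; so it sends `EqvGen (Con φ ε v)` to `EqvGen (Con φ' ε' v)` (induction on `EqvGen`), and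
`mg w.1 = w` for `w : {w // w ≠ (G.ends f).2}`.
-/

set_option autoImplicit false

namespace Pool.Agent.TU

theorem isMinor_contr {H G : MGraph} {φ : G.V → Option H.V} {ε : H.E → G.E} (h : IsModel H G φ ε)
    (f : G.E) (hf : ∀ e, ε e ≠ f) (hne : (G.ends f).1 ≠ (G.ends f).2)
    (hφ : φ (G.ends f).1 = φ (G.ends f).2) : IsMinor H (G.contr f hne) := by
  have hmg : ∀ w, φ (G.mg f hne w).1 = φ w := by
    intro w
    unfold MGraph.mg
    by_cases hw : w = (G.ends f).2
    · rw [dif_pos hw, hw]; exact hφ
    · rw [dif_neg hw]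
  have hmg2 : ∀ w : {w : G.V // w ≠ (G.ends f).2}, G.mg f hne w.1 = w := by
    intro w
    unfold MGraph.mg
    rw [dif_neg w.2]
  have hmg3 : G.mg f hne (G.ends f).1 = G.mg f hne (G.ends f).2 := by
    unfold MGraph.mg
    rw [dif_neg hne, dif_pos rfl]
  let φ' : (G.contr f hne).V → Option H.V := fun w => φ w.1
  let ε' : H.E → (G.contr f hne).E := fun e => ⟨ε e, hf e⟩
  refine ⟨φ', ε', ?_, ?_, ?_, ?_⟩
  · intro e1 e2 h12
    exact h.inj (congrArg Subtype.val h12)
  · intro e
    show (φ (G.mg f hne (G.ends (ε e)).1).1 = some (H.ends e).1 ∧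
      φ (G.mg f hne (G.ends (ε e)).2).1 = some (H.ends e).2) ∨
      (φ (G.mg f hne (G.ends (ε e)).1).1 = some (H.ends e).2 ∧
      φ (G.mg f hne (G.ends (ε e)).2).1 = some (H.ends e).1)
    rw [hmg, hmg]
    exact h.ends e
  · intro u
    obtain ⟨w, hw⟩ := h.surj u
    exact ⟨G.mg f hne w, (hmg w).trans hw⟩
  · intro w w' u hw hw'
    have key : ∀ a b : G.V, Relation.EqvGen (Con φ ε u) a b →
        Relation.EqvGen (Con (H := H) (G := G.contr f hne) φ' ε' u)
          (G.mg f hne a) (G.mg f hne b) := by
      intro a b hab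
      induction hab with
      | rel a b hc =>
        obtain ⟨h1, h2, g, h3, h4⟩ := hc
        by_cases hg : g = f
        · rw [hg] at h4
          have ha : a = (G.ends f).1 := by rw [h4]
          have hb : b = (G.ends f).2 := by rw [h4]
          rw [ha, hb, hmg3]
          exact Relation.EqvGen.refl _
        · refine Relation.EqvGen.rel _ _ ⟨(hmg a).trans h1, (hmg b).trans h2, ⟨g, hg⟩, ?_, ?_⟩
          · intro e h5
            exact h3 e (congrArg Subtype.val h5)
          · show (G.mg f hne (G.ends g).1, G.mg f hne (G.ends g).2) = _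
            rw [h4]
            rfl
      | refl a => exact Relation.EqvGen.refl _
      | symm a b _ ih => exact Relation.EqvGen.symm _ _ ih
      | trans a b c _ _ ih1 ih2 => exact Relation.EqvGen.trans _ _ _ ih1 ih2
    have h1 := key w.1 w'.1 (h.conn w.1 w'.1 u hw hw')
    rw [hmg2, hmg2] at h1
    exact h1

end Pool.Agent.TU
end

section

/-!
# Task Mo3: deletion of an unused edge which is a loop or joins different branch sets; the last step

Proofs.
* `isMinor_delE`: `φ' := φ`, `ε' e := ⟨ε e, _⟩`.  `conn`: `Con φ ε v a b` given by the edge `f` itself: then `a = b` (if `f` is a loop), or impossible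
  (`φ a = some v = φ b`).  Otherwise it is given by another edge.  Induction on `EqvGen`.
* `iso_of_model`: if no vertex is deleted and every edge of `G` is used then `Con φ ε v` is empty, so `EqvGen` is equality
  and `φ` is injective; `φ w = some (f w)` with `f : G.V → H.V` bijective (`surj`), `ε` bijective; `Iso G H` with `f` and the inverse of `ε`
  (`Equiv.ofBijective`).
-/

set_option autoImplicit false

namespace Pool.Agent.TU

theorem isMinor_delE {H G : MGraph} {φ : G.V → Option H.V} {ε : H.E → G.E} (h : IsModel H G φ ε)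
    (f : G.E) (hf : ∀ e, ε e ≠ f)
    (hφ : (G.ends f).1 = (G.ends f).2 ∨ φ (G.ends f).1 ≠ φ (G.ends f).2) :
    IsMinor H (G.delE f) := by
  let ε' : H.E → (G.delE f).E := fun e => ⟨ε e, hf e⟩
  refine ⟨(φ : (G.delE f).V → Option H.V), ε', ?_, h.ends, h.surj, ?_⟩
  · intro a b hab
    exact h.inj (congrArg Subtype.val hab)
  · intro w w' v hw hw'
    have key : ∀ a b : G.V, Relation.EqvGen (Con φ ε v) a b →
        Relation.EqvGen (Con (G := G.delE f) φ ε' v) a b := by
      intro a b hab
      induction hab with
      | rel a b hr =>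
        obtain ⟨ha, hb, g, hg, hge⟩ := hr
        by_cases hgf : g = f
        · subst hgf
          rw [hge] at hφ
          rcases hφ with hφ | hφ
          · have hab : a = b := hφ
            rw [hab]
            exact Relation.EqvGen.refl _
          · exact absurd (ha.trans hb.symm) hφ
        · exact Relation.EqvGen.rel _ _ ⟨ha, hb, ⟨g, hgf⟩,
            fun e he => hg e (congrArg Subtype.val he), hge⟩
      | refl a => exact Relation.EqvGen.refl _
      | symm a b _ ih => exact Relation.EqvGen.symm _ _ ih
      | trans a b c _ _ ih1 ih2 => exact Relation.EqvGen.trans _ _ _ ih1 ih2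
    exact key w w' (h.conn w w' v hw hw')

theorem iso_of_model {H G : MGraph} {φ : G.V → Option H.V} {ε : H.E → G.E} (h : IsModel H G φ ε)
    (hv : ∀ w, φ w ≠ none) (he : ∀ f, ∃ e, ε e = f) : MGraph.Iso G H := by
  have h1 : ∀ w, ∃ v, φ w = some v := fun w => Option.ne_none_iff_exists'.1 (hv w)
  choose f hf using h1
  have h2 : ∀ (v : H.V) (a b : G.V), Relation.EqvGen (Con φ ε v) a b → a = b := by
    intro v a b hab
    induction hab with
    | rel a b hr =>
      obtain ⟨_, _, g, hg, _⟩ := hr
      obtain ⟨e, hee⟩ := he g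
      exact absurd hee (hg e)
    | refl a => rfl
    | symm a b _ ih => exact ih.symm
    | trans a b c _ _ ih1 ih2 => exact ih1.trans ih2
  have hfb : Function.Bijective f := by
    constructor
    · intro w w' hww
      exact h2 (f w) w w' (h.conn w w' (f w) (hf w) (by rw [hf w', hww]))
    · intro v
      obtain ⟨w, hw⟩ := h.surj v
      refine ⟨w, ?_⟩
      rw [hf w] at hw
      exact Option.some.inj hw
  have hεb : Function.Bijective ε := ⟨h.inj, he⟩
  refine ⟨Equiv.ofBijective f hfb, (Equiv.ofBijective ε hεb).symm, fun e => ?_⟩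
  have h3 : ε ((Equiv.ofBijective ε hεb).symm e) = e := (Equiv.ofBijective ε hεb).apply_symm_apply e
  have h4 := h.ends ((Equiv.ofBijective ε hεb).symm e)
  rw [h3, hf, hf] at h4
  rcases h4 with ⟨h5, h6⟩ | ⟨h5, h6⟩
  · left
    exact Prod.ext (Option.some.inj h5).symm (Option.some.inj h6).symm
  · right
    exact Prod.ext (Option.some.inj h6).symm (Option.some.inj h5).symm

end Pool.Agent.TU
end

section

/-!
# Task Lb: the rank of a graph by merging labels

Proof.  Invariant for the list of the first edges `es' = es.take t`, state `(lab, r)`: `lab.length = n`; `∀ l ∈ lab, l < n`; for `i, j < n`: `lab[i] = lab[j] ↔ i, j` connected by edges in `es'` (`Relation.EqvGen`); and the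
number of different labels plus `r` is `n`: `lab.toFinset.card + r = n`.  Step: if the labels `p, q` of the ends are different then all the labels `q` become `p`; the set of labels loses exactly `q`
(`p` stays).  Start: `lab = range n`, labels `i`, no edges.
At the end: `Quot (fun a b => ∃ e ∈ univ, ends e = (a, b))` is in bijection with the set of labels: the map `v ↦ lab[v]` factors through `Quot` (`Quot.lift`), it is injective by the invariant
(`Quot.eqvGen_sound`) and its image is the set of labels.  So `comps = lab.toFinset.card`, `rk = n - comps = r`.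
It may be easier to keep as invariant the statement `comps`: for every list `es` (all ends `< n`) with the function `c(es) = Nat.card (Quot (fun a b : Fin n => ∃ e ∈ es, e = (a.1, b.1)))`.
-/

set_option autoImplicit false

namespace Pool.Agent.TU

/-- One edge: the label of the second end is replaced by the label of the first end everywhere. -/
def lstep (s : List ℕ × ℕ) (e : ℕ × ℕ) : List ℕ × ℕ :=
  if s.1.getD e.1 0 = s.1.getD e.2 0 then s
  else (s.1.map (fun l => if l = s.1.getD e.2 0 then s.1.getD e.1 0 else l), s.2 + 1)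

/-- The rank: the number of merging edges. -/
def rkn (n : ℕ) (es : List (ℕ × ℕ)) : ℕ := (es.foldl lstep (List.range n, 0)).2

/-- The edges as a relation. -/
private def LbR (n : ℕ) (es : List (ℕ × ℕ)) (a b : Fin n) : Prop := ∃ e ∈ es, e = (a.1, b.1)

/-- The invariant. -/
private structure LbInv (n : ℕ) (es : List (ℕ × ℕ)) (s : List ℕ × ℕ) : Prop where
  len : s.1.length = n
  iff : ∀ i j : Fin n, s.1.getD i 0 = s.1.getD j 0 ↔ Relation.EqvGen (LbR n es) i j
  card : s.1.toFinset.card + s.2 = n

private theorem Lb_start (n : ℕ) : LbInv n [] (List.range n, 0) := by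
  have hget : ∀ i : Fin n, (List.range n).getD i 0 = i.1 := by
    intro i
    rw [List.getD_eq_getElem _ _ (by rw [List.length_range]; exact i.2), List.getElem_range]
  refine ⟨List.length_range, fun i j => ?_, ?_⟩
  · rw [hget, hget]
    constructor
    · intro h
      rw [Fin.ext h]
      exact Relation.EqvGen.refl _
    · intro h
      induction h with
      | rel a b h =>
        obtain ⟨e, he, _⟩ := h
        exact absurd he List.not_mem_nil
      | refl a => rfl
      | symm a b _ ih => exact ih.symm
      | trans a b c _ _ ih1 ih2 => exact ih1.trans ih2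
  · rw [List.toFinset_range, Finset.card_range, add_zero]

private theorem Lb_step {n : ℕ} {es : List (ℕ × ℕ)} {s : List ℕ × ℕ} (h : LbInv n es s)
    {e : ℕ × ℕ} (h1 : e.1 < n) (h2 : e.2 < n) : LbInv n (es ++ [e]) (lstep s e) := by
  have hmono : ∀ i j : Fin n, Relation.EqvGen (LbR n es) i j →
      Relation.EqvGen (LbR n (es ++ [e])) i j := by
    intro i j hij
    induction hij with
    | rel a b hab =>
      obtain ⟨e', he', hab⟩ := hab
      exact Relation.EqvGen.rel _ _ ⟨e', List.mem_append_left _ he', hab⟩
    | refl a => exact Relation.EqvGen.refl _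
    | symm a b _ ih => exact ih.symm
    | trans a b c _ _ ih1 ih2 => exact ih1.trans _ _ _ ih2
  have hnew : Relation.EqvGen (LbR n (es ++ [e])) ⟨e.1, h1⟩ ⟨e.2, h2⟩ :=
    Relation.EqvGen.rel _ _ ⟨e, List.mem_append_right _ (List.mem_singleton.2 rfl), rfl⟩
  -- a function of the labels which identifies the ends of `e`
  have hback : ∀ g : ℕ → ℕ, g (s.1.getD e.1 0) = g (s.1.getD e.2 0) → ∀ i j : Fin n,
      Relation.EqvGen (LbR n (es ++ [e])) i j → g (s.1.getD i 0) = g (s.1.getD j 0) := by
    intro g hg i j hij
    induction hij with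
    | rel a b hab =>
      obtain ⟨e', he', hab⟩ := hab
      rcases List.mem_append.1 he' with h3 | h3
      · rw [(h.iff a b).2 (Relation.EqvGen.rel _ _ ⟨e', h3, hab⟩)]
      · rw [List.mem_singleton.1 h3] at hab
        have e1 : e.1 = a.1 := by rw [hab]
        have e2 : e.2 = b.1 := by rw [hab]
        rw [e1, e2] at hg
        exact hg
    | refl a => rfl
    | symm a b _ ih => exact ih.symm
    | trans a b c _ _ ih1 ih2 => exact ih1.trans ih2
  unfold lstep
  by_cases hpq : s.1.getD e.1 0 = s.1.getD e.2 0
  · rw [if_pos hpq]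
    refine ⟨h.len, fun i j => ⟨fun hij => hmono i j ((h.iff i j).1 hij), fun hij => ?_⟩, h.card⟩
    exact hback (fun l => l) hpq i j hij
  · rw [if_neg hpq]
    set p := s.1.getD e.1 0 with hp
    set q := s.1.getD e.2 0 with hq
    have hget : ∀ i : Fin n, (s.1.map (fun l => if l = q then p else l)).getD i 0 =
        if s.1.getD i 0 = q then p else s.1.getD i 0 := by
      intro i
      have hi : i.1 < s.1.length := by rw [h.len]; exact i.2
      rw [List.getD_eq_getElem _ _ (by rw [List.length_map]; exact hi), List.getElem_map,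
        List.getD_eq_getElem _ _ hi]
    have hmem : ∀ k : ℕ, k < n → s.1.getD k 0 ∈ s.1 := by
      intro k hk
      have hk' : k < s.1.length := by rw [h.len]; exact hk
      rw [List.getD_eq_getElem _ _ hk']
      exact List.getElem_mem hk'
    refine ⟨by rw [List.length_map]; exact h.len, fun i j => ⟨fun hij => ?_, fun hij => ?_⟩, ?_⟩
    · rw [hget, hget] at hij
      have ha : ∀ i : Fin n, s.1.getD i 0 = p → Relation.EqvGen (LbR n (es ++ [e])) i ⟨e.1, h1⟩ :=
        fun i hi => hmono _ _ ((h.iff i ⟨e.1, h1⟩).1 hi)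
      have hb : ∀ i : Fin n, s.1.getD i 0 = q → Relation.EqvGen (LbR n (es ++ [e])) i ⟨e.2, h2⟩ :=
        fun i hi => hmono _ _ ((h.iff i ⟨e.2, h2⟩).1 hi)
      split_ifs at hij with c1 c2 c2
      · exact hmono i j ((h.iff i j).1 (c1.trans c2.symm))
      · exact (hb i c1).trans _ _ _ (hnew.symm.trans _ _ _ (ha j hij.symm).symm)
      · exact (ha i hij).trans _ _ _ (hnew.trans _ _ _ (hb j c2).symm)
      · exact hmono i j ((h.iff i j).1 hij)
    · rw [hget, hget]
      exact hback (fun l => if l = q then p else l) (by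
        simp only [if_neg hpq, if_true]) i j hij
    · have hset : (s.1.map (fun l => if l = q then p else l)).toFinset = s.1.toFinset.erase q := by
        ext l
        rw [List.mem_toFinset, List.mem_map, Finset.mem_erase, List.mem_toFinset]
        constructor
        · rintro ⟨l', hl', rfl⟩
          split_ifs with c
          · exact ⟨hpq, hmem e.1 h1⟩
          · exact ⟨c, hl'⟩
        · rintro ⟨hl, hl'⟩
          exact ⟨l, hl', if_neg hl⟩
      have hqm : q ∈ s.1.toFinset := List.mem_toFinset.2 (hmem e.2 h2)
      have hc := Finset.card_erase_add_one hqm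
      have hcard := h.card
      simp only
      rw [hset]
      omega

private theorem Lb_fold {n : ℕ} (es : List (ℕ × ℕ)) : ∀ (pre : List (ℕ × ℕ)) (s : List ℕ × ℕ),
    LbInv n pre s → (∀ e ∈ es, e.1 < n ∧ e.2 < n) → LbInv n (pre ++ es) (es.foldl lstep s) := by
  induction es with
  | nil =>
    intro pre s h _
    rw [List.append_nil]
    exact h
  | cons e es ih =>
    intro pre s h hok
    have h1 := ih (pre ++ [e]) (lstep s e)
      (Lb_step h (hok e List.mem_cons_self).1 (hok e List.mem_cons_self).2)
      (fun e' he' => hok e' (List.mem_cons_of_mem _ he'))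
    rw [List.append_assoc, List.singleton_append] at h1
    exact h1

theorem rkn_eq (G : EG) : rkn G.n G.es = G.toM.rk Finset.univ := by
  have h := Lb_fold G.es [] _ (Lb_start G.n) G.ok
  rw [List.nil_append] at h
  unfold rkn MGraph.rk MGraph.comps
  generalize G.es.foldl lstep (List.range G.n, 0) = s at h ⊢
  have hrel : (fun a b : G.toM.V => ∃ e ∈ (Finset.univ : Finset G.toM.E), G.toM.ends e = (a, b)) =
      LbR G.n G.es := by
    funext a b
    apply propext
    constructor
    · rintro ⟨e, _, he⟩
      refine ⟨G.es[e.1], List.getElem_mem e.2, ?_⟩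
      have h1 : (G.toM.ends e).1 = a := by rw [he]
      have h2 : (G.toM.ends e).2 = b := by rw [he]
      refine Prod.ext ?_ ?_
      · rw [← h1]
        rfl
      · rw [← h2]
        rfl
    · rintro ⟨e, he, hab⟩
      obtain ⟨k, hk, rfl⟩ := List.mem_iff_getElem.1 he
      refine ⟨⟨k, hk⟩, Finset.mem_univ _, ?_⟩
      refine Prod.ext (Fin.ext ?_) (Fin.ext ?_)
      · change (G.es[k]).1 = a.1
        rw [hab]
      · change (G.es[k]).2 = b.1
        rw [hab]
  rw [hrel]
  have hmem : ∀ v : Fin G.n, s.1.getD v 0 ∈ s.1.toFinset := by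
    intro v
    have hv : v.1 < s.1.length := by rw [h.len]; exact v.2
    rw [List.getD_eq_getElem _ _ hv, List.mem_toFinset]
    exact List.getElem_mem hv
  let F : Quot (LbR G.n G.es) → s.1.toFinset :=
    Quot.lift (fun v : Fin G.n => (⟨s.1.getD v 0, hmem v⟩ : s.1.toFinset)) (fun a b hab =>
      Subtype.ext ((h.iff a b).2 (Relation.EqvGen.rel _ _ hab)))
  have hF : Function.Bijective F := by
    constructor
    · rintro ⟨a⟩ ⟨b⟩ hab
      have h1 : s.1.getD a 0 = s.1.getD b 0 := congrArg Subtype.val hab
      exact Quot.eqvGen_sound ((h.iff a b).1 h1)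
    · rintro ⟨l, hl⟩
      obtain ⟨k, hk, rfl⟩ := List.mem_iff_getElem.1 (List.mem_toFinset.1 hl)
      refine ⟨Quot.mk _ ⟨k, by rw [← h.len]; exact hk⟩, Subtype.ext ?_⟩
      exact List.getD_eq_getElem _ _ hk
  have hcard : Nat.card (Quot (LbR G.n G.es)) = s.1.toFinset.card := by
    rw [Nat.card_congr (Equiv.ofBijective F hF), Nat.card_eq_fintype_card, Fintype.card_coe]
  have hV : Fintype.card G.toM.V = G.n := Fintype.card_fin G.n
  have hc := h.card
  have hcard' : Nat.card (Quot fun a b : G.toM.V => LbR G.n G.es a b) = s.1.toFinset.card := hcard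
  rw [hV]
  change s.2 = G.n - Nat.card (Quot (LbR G.n G.es))
  rw [hcard]
  omega

end Pool.Agent.TU
end
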